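import Mathlib

/-! Flagged words: summing over permutations by successive insertion of the smallest letter. -/

namespace Pool.Agent.R25.Dw

open Finset

/-- insert a new smallest letter at position `r` (all other letters go up by one) -/
def insF (r : ℕ) (w : ℕ → ℕ) : ℕ → ℕ :=
  fun k => if k < r then w k + 1 else if k = r then 0 else w (k - 1) + 1

/-- insert a new flag at position `r` -/
def insB (r : ℕ) (b : Bool) (c : ℕ → Bool) : ℕ → Bool :=
  fun k => if k < r then c k else if k = r then b else c (k - 1)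

lemma insF_lt {r k : ℕ} (w : ℕ → ℕ) (h : k < r) : insF r w k = w k + 1 := by
  simp [insF, h]
lemma insF_eq (r : ℕ) (w : ℕ → ℕ) : insF r w r = 0 := by simp [insF]
lemma insF_ge {r k : ℕ} (w : ℕ → ℕ) (h : r ≤ k) : insF r w (k + 1) = w k + 1 := by
  have h1 : ¬ (k + 1 < r) := by omega
  have h2 : ¬ (k + 1 = r) := by omega
  simp [insF, h1, h2]
lemma insB_lt {r k : ℕ} (b : Bool) (c : ℕ → Bool) (h : k < r) : insB r b c k = c k := by
  simp [insB, h]
lemma insB_eq (r : ℕ) (b : Bool) (c : ℕ → Bool) : insB r b c r = b := by simp [insB]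
lemma insB_ge {r k : ℕ} (b : Bool) (c : ℕ → Bool) (h : r ≤ k) :
    insB r b c (k + 1) = c k := by
  have h1 : ¬ (k + 1 < r) := by omega
  have h2 : ¬ (k + 1 = r) := by omega
  simp [insB, h1, h2]

/-- word of values of a permutation -/
def vf {n : ℕ} (s : Equiv.Perm (Fin n)) : ℕ → ℕ :=
  fun k => if h : k < n then (s ⟨k, h⟩ : ℕ) else 0
/-- flags as a function on all naturals -/
def bf {n : ℕ} (c : Fin n → Bool) : ℕ → Bool :=
  fun k => if h : k < n then c ⟨k, h⟩ else false

/-- the permutation obtained by inserting a new smallest value at position `r` -/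
def ins {n : ℕ} (r : Fin (n + 1)) (s : Equiv.Perm (Fin n)) : Equiv.Perm (Fin (n + 1)) :=
  (finSuccEquiv' r).trans ((Equiv.optionCongr s).trans (finSuccEquiv' 0).symm)

lemma ins_self {n : ℕ} (r : Fin (n + 1)) (s : Equiv.Perm (Fin n)) : ins r s r = 0 := by
  simp [ins]

lemma ins_succAbove {n : ℕ} (r : Fin (n + 1)) (s : Equiv.Perm (Fin n)) (k : Fin n) :
    ins r s (r.succAbove k) = (s k).succ := by
  simp [ins]

lemma vf_ins {n : ℕ} (r : Fin (n + 1)) (s : Equiv.Perm (Fin n)) (k : ℕ) (hk : k < n + 1) :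
    vf (ins r s) k = insF r (vf s) k := by
  rcases lt_trichotomy k (r : ℕ) with h | h | h
  · have hr := r.isLt
    have hk' : k < n := by omega
    have e : (⟨k, hk⟩ : Fin (n + 1)) = r.succAbove ⟨k, hk'⟩ := by
      rw [Fin.succAbove_of_castSucc_lt]
      · rfl
      · simp [Fin.lt_def, h]
    rw [insF_lt _ h]
    simp only [vf, hk, hk', dif_pos]
    rw [e, ins_succAbove]
    simp
  · subst h
    rw [insF_eq]
    simp only [vf, hk, dif_pos]
    have : (⟨(r : ℕ), hk⟩ : Fin (n + 1)) = r := rfl
    rw [this, ins_self]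
    rfl
  · obtain ⟨j, rfl⟩ : ∃ j, k = j + 1 := ⟨k - 1, by omega⟩
    have hj : j < n := by omega
    have e : (⟨j + 1, hk⟩ : Fin (n + 1)) = r.succAbove ⟨j, hj⟩ := by
      rw [Fin.succAbove_of_le_castSucc]
      · rfl
      · simp [Fin.le_def]; omega
    rw [insF_ge _ (by omega)]
    simp only [vf, hk, hj, dif_pos]
    rw [e, ins_succAbove]
    simp

lemma bf_ins {n : ℕ} (r : Fin (n + 1)) (b : Bool) (c : Fin n → Bool) (k : ℕ)
    (hk : k < n + 1) :
    bf (Fin.insertNth (α := fun _ => Bool) r b c) k = insB r b (bf c) k := by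
  rcases lt_trichotomy k (r : ℕ) with h | h | h
  · have hr := r.isLt
    have hk' : k < n := by omega
    have e : (⟨k, hk⟩ : Fin (n + 1)) = r.succAbove ⟨k, hk'⟩ := by
      rw [Fin.succAbove_of_castSucc_lt]
      · rfl
      · simp [Fin.lt_def, h]
    rw [insB_lt _ _ h]
    simp only [bf, hk, hk', dif_pos]
    rw [e, Fin.insertNth_apply_succAbove]
  · subst h
    rw [insB_eq]
    simp only [bf, hk, dif_pos]
    have : (⟨(r : ℕ), hk⟩ : Fin (n + 1)) = r := rfl
    rw [this, Fin.insertNth_apply_same]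
  · obtain ⟨j, rfl⟩ : ∃ j, k = j + 1 := ⟨k - 1, by omega⟩
    have hj : j < n := by omega
    have e : (⟨j + 1, hk⟩ : Fin (n + 1)) = r.succAbove ⟨j, hj⟩ := by
      rw [Fin.succAbove_of_le_castSucc]
      · rfl
      · simp [Fin.le_def]; omega
    rw [insB_ge _ _ (by omega)]
    simp only [bf, hk, hj, dif_pos]
    rw [e, Fin.insertNth_apply_succAbove]

lemma ins_bij (n : ℕ) : Function.Bijective
    (fun p : Fin (n + 1) × Equiv.Perm (Fin n) => ins p.1 p.2) := by
  rw [Fintype.bijective_iff_injective_and_card]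
  constructor
  · rintro ⟨r, s⟩ ⟨r', s'⟩ h
    simp only at h
    have h1 : ins r' s' r = 0 := by rw [← h]; exact ins_self r s
    have h2 : r = r' := by
      apply (ins r' s').injective
      rw [h1, ins_self]
    subst h2
    have h3 : s = s' := by
      ext k
      have := congrArg (fun e : Equiv.Perm (Fin (n + 1)) => e (r.succAbove k)) h
      simp only [ins_succAbove] at this
      have := Fin.succ_injective _ this
      rw [this]
    rw [h3]
  · simp [Fintype.card_perm, Nat.factorial_succ]

variable {K : Type*} [CommRing K]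

lemma sum_perm_succ {n : ℕ} (G : Equiv.Perm (Fin (n + 1)) → K) :
    ∑ t, G t = ∑ r : Fin (n + 1), ∑ s : Equiv.Perm (Fin n), G (ins r s) := by
  rw [← Fintype.sum_prod_type' (f := fun r s => G (ins r s))]
  exact ((ins_bij n).sum_comp (fun t => G t)).symm

lemma sum_flag_succ {n : ℕ} (r : Fin (n + 1)) (G : (Fin (n + 1) → Bool) → K) :
    ∑ c, G c = ∑ b : Bool, ∑ c : Fin n → Bool,
      G (Fin.insertNth (α := fun _ => Bool) r b c) := by
  rw [← Fintype.sum_prod_type'
    (f := fun b c => G (Fin.insertNth (α := fun _ => Bool) r b c))]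
  exact ((Fin.insertNthEquiv (fun _ => Bool) r).sum_comp (fun t => G t)).symm

/-- nested insertion sum -/
def S : (n : ℕ) → ((ℕ → ℕ) → (ℕ → Bool) → K) → K
  | 0, F => F (fun _ => 0) (fun _ => false)
  | (n + 1), F => S n (fun w c => ∑ r ∈ range (n + 1), ∑ b : Bool, F (insF r w) (insB r b c))

/-- `F` only looks at positions below `n` -/
def Loc (n : ℕ) (F : (ℕ → ℕ) → (ℕ → Bool) → K) : Prop :=
  ∀ w w' c c', (∀ k < n, w k = w' k) → (∀ k < n, c k = c' k) → F w c = F w' c'

lemma insF_congr {r n : ℕ} {w w' : ℕ → ℕ} (hr : r < n + 1) (h : ∀ k < n, w k = w' k) :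
    ∀ k < n + 1, insF r w k = insF r w' k := by
  intro k hk
  rcases lt_trichotomy k r with h1 | h1 | h1
  · rw [insF_lt _ h1, insF_lt _ h1, h k (by omega)]
  · subst h1; rw [insF_eq, insF_eq]
  · obtain ⟨j, rfl⟩ : ∃ j, k = j + 1 := ⟨k - 1, by omega⟩
    rw [insF_ge _ (by omega), insF_ge _ (by omega), h j (by omega)]

lemma insB_congr {r n : ℕ} {b : Bool} {c c' : ℕ → Bool} (hr : r < n + 1)
    (h : ∀ k < n, c k = c' k) :
    ∀ k < n + 1, insB r b c k = insB r b c' k := by
  intro k hk
  rcases lt_trichotomy k r with h1 | h1 | h1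
  · rw [insB_lt _ _ h1, insB_lt _ _ h1, h k (by omega)]
  · subst h1; rw [insB_eq, insB_eq]
  · obtain ⟨j, rfl⟩ : ∃ j, k = j + 1 := ⟨k - 1, by omega⟩
    rw [insB_ge _ _ (by omega), insB_ge _ _ (by omega), h j (by omega)]

theorem sum_eq_S (n : ℕ) : ∀ F : (ℕ → ℕ) → (ℕ → Bool) → K, Loc n F →
    ∑ s : Equiv.Perm (Fin n), ∑ c : Fin n → Bool, F (vf s) (bf c) = S n F := by
  induction n with
  | zero =>
    intro F hF
    rw [Fintype.sum_unique, Fintype.sum_unique]
    simp only [S]
    apply hF <;> intro k hk <;> omega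
  | succ n ih =>
    intro F hF
    rw [sum_perm_succ]
    have e1 : ∀ r : Fin (n + 1), ∀ s : Equiv.Perm (Fin n),
        ∑ c : Fin (n + 1) → Bool, F (vf (ins r s)) (bf c)
        = ∑ b : Bool, ∑ c : Fin n → Bool, F (insF r (vf s)) (insB r b (bf c)) := by
      intro r s
      rw [sum_flag_succ r]
      refine Finset.sum_congr rfl (fun b _ => Finset.sum_congr rfl (fun c _ => ?_))
      apply hF
      · intro k hk; exact vf_ins r s k hk
      · intro k hk; exact bf_ins r b c k hk
    simp_rw [e1]
    show _ = S n _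
    rw [← ih]
    · rw [Finset.sum_comm]
      refine Finset.sum_congr rfl (fun s _ => ?_)
      have e2 : ∀ c : Fin n → Bool,
          ∑ r ∈ range (n + 1), ∑ b : Bool, F (insF r (vf s)) (insB r b (bf c))
          = ∑ r : Fin (n + 1), ∑ b : Bool, F (insF r (vf s)) (insB r b (bf c)) := by
        intro c
        rw [Finset.sum_range]
      simp_rw [e2]
      symm
      rw [Finset.sum_comm]
      refine Finset.sum_congr rfl (fun r _ => ?_)
      rw [Finset.sum_comm]
    · intro w w' c c' hw hc
      refine Finset.sum_congr rfl (fun r hr => Finset.sum_congr rfl (fun b _ => ?_))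
      have hr' := Finset.mem_range.mp hr
      apply hF
      · exact insF_congr hr' hw
      · exact insB_congr hr' hc

/-- product of flag weights -/
noncomputable def wp (q : K) (n : ℕ) (c : ℕ → Bool) : K :=
  ∏ k ∈ range n, (if c k then q - 1 else 1)

lemma wp_ins (q : K) (n r : ℕ) (hr : r ≤ n) (b : Bool) (c : ℕ → Bool) :
    wp q (n + 1) (insB r b c) = (if b then q - 1 else 1) * wp q n c := by
  obtain ⟨m, rfl⟩ : ∃ m, n = r + m := ⟨n - r, by omega⟩
  unfold wp
  rw [show r + m + 1 = r + (m + 1) from rfl,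
    Finset.prod_range_add (fun k => if insB r b c k = true then q - 1 else 1) r (m + 1),
    Finset.prod_range_add (fun k => if c k = true then q - 1 else 1) r m,
    Finset.prod_range_succ' (fun x => if insB r b c (r + x) = true then q - 1 else 1) m]
  have e1 : ∏ x ∈ range r, (if insB r b c x then q - 1 else 1)
      = ∏ x ∈ range r, (if c x then q - 1 else 1) := by
    refine Finset.prod_congr rfl (fun x hx => ?_)
    rw [insB_lt _ _ (Finset.mem_range.mp hx)]
  have e2 : ∏ x ∈ range m, (if insB r b c (r + (x + 1)) then q - 1 else 1)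
      = ∏ x ∈ range m, (if c (r + x) then q - 1 else 1) := by
    refine Finset.prod_congr rfl (fun x _ => ?_)
    rw [← add_assoc, insB_ge _ _ (by omega)]
  rw [e1, e2, Nat.add_zero, insB_eq]
  ring

open Classical in
/-- the master induction -/
theorem S_step {T : Type*} (q : K) (OK : ℕ → (ℕ → ℕ) → (ℕ → Bool) → Prop)
    (st : ℕ → (ℕ → ℕ) → (ℕ → Bool) → T) (Step : (T → K) → (T → K))
    (H : ∀ n w c (f : T → K),
      (∑ r ∈ range (n + 1), ∑ b : Bool, if OK (n + 1) (insF r w) (insB r b c) then
        (if b then q - 1 else 1) * f (st (n + 1) (insF r w) (insB r b c)) else 0)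
      = if OK n w c then Step f (st n w c) else 0)
    (h0 : OK 0 (fun _ => 0) (fun _ => false)) (n : ℕ) :
    ∀ f : T → K, S n (fun w c => if OK n w c then wp q n c * f (st n w c) else 0)
      = (Step^[n] f) (st 0 (fun _ => 0) (fun _ => false)) := by
  induction n with
  | zero =>
    intro f
    simp [S, h0, wp]
  | succ n ih =>
    intro f
    show S n _ = _
    rw [Function.iterate_succ_apply, ← ih (Step f)]
    congr 1
    funext w c
    have e1 : ∀ r ∈ range (n + 1), ∀ b : Bool,
        (if OK (n + 1) (insF r w) (insB r b c) then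
          wp q (n + 1) (insB r b c) * f (st (n + 1) (insF r w) (insB r b c)) else 0)
        = wp q n c * (if OK (n + 1) (insF r w) (insB r b c) then
        (if b then q - 1 else 1) * f (st (n + 1) (insF r w) (insB r b c)) else 0) := by
      intro r hr b
      rw [wp_ins q n r (by have := Finset.mem_range.mp hr; omega)]
      split_ifs <;> ring
    rw [Finset.sum_congr rfl (fun r hr => Finset.sum_congr rfl (fun b _ => e1 r hr b))]
    simp_rw [← Finset.mul_sum]
    rw [H n w c f]
    split_ifs <;> ring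

end Pool.Agent.R25.Dw
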