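import Pool.Agent.R25.Dw.Base

namespace Pool.Agent.R25.Dw

open Finset
open Classical in
/-- number of `k < n` with `P k` -/
noncomputable def cnt (P : ℕ → Prop) (n : ℕ) : ℕ := ∑ k ∈ range n, if P k then 1 else 0

open Classical in
lemma cnt_succ (P : ℕ → Prop) (n : ℕ) : cnt P (n + 1) = cnt P n + if P n then 1 else 0 := by
  unfold cnt
  rw [Finset.sum_range_succ]

lemma cnt_zero (P : ℕ → Prop) : cnt P 0 = 0 := by simp [cnt]

open Classical in
lemma cnt_congr {P P' : ℕ → Prop} {n : ℕ} (h : ∀ k < n, (P' k ↔ P k)) :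
    cnt P' n = cnt P n := by
  unfold cnt
  refine Finset.sum_congr rfl (fun k hk => ?_)
  exact if_congr (h k (Finset.mem_range.mp hk)) rfl rfl

open Classical in
lemma cnt_ins {P P' : ℕ → Prop} {r n : ℕ} (hr : r ≤ n) (h1 : ∀ j < r, (P' j ↔ P j))
    (h2 : ∀ j, r ≤ j → j < n → (P' (j + 1) ↔ P j)) :
    cnt P' (n + 1) = cnt P n + if P' r then 1 else 0 := by
  induction n, hr using Nat.le_induction with
  | base => rw [cnt_succ, cnt_congr h1]
  | succ n hn ih =>
    rw [cnt_succ, ih (fun j hj hj' => h2 j hj (by omega)), cnt_succ P n]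
    have := h2 n hn (by omega)
    simp only [this]
    omega

/-- position shift -/
def up (r k : ℕ) : ℕ := if k < r then k else k + 1

lemma up_lt {r k : ℕ} (h : k < r) : up r k = k := by simp [up, h]
lemma up_ge {r k : ℕ} (h : r ≤ k) : up r k = k + 1 := by
  have : ¬ k < r := by omega
  simp [up, this]
lemma up_lt_up {r k l : ℕ} : up r k < up r l ↔ k < l := by
  unfold up; split_ifs <;> omega
lemma up_lt_self {r k : ℕ} : up r k < r ↔ k < r := by
  unfold up; split_ifs <;> omega
lemma self_lt_up {r k : ℕ} : r < up r k ↔ r ≤ k := by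
  unfold up; split_ifs <;> omega
lemma up_lt_succ {r k n : ℕ} (h : r ≤ n) : up r k < n + 1 ↔ k < n := by
  unfold up; split_ifs <;> omega
lemma cases_up (r k : ℕ) : k = r ∨ ∃ j, k = up r j := by
  rcases lt_trichotomy k r with h | h | h
  · exact Or.inr ⟨k, (up_lt h).symm⟩
  · exact Or.inl h
  · refine Or.inr ⟨k - 1, ?_⟩
    rw [up_ge (by omega)]; omega
lemma insF_up (r k : ℕ) (w : ℕ → ℕ) : insF r w (up r k) = w k + 1 := by
  by_cases h : k < r
  · rw [up_lt h, insF_lt _ h]
  · rw [up_ge (by omega), insF_ge _ (by omega)]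
lemma insB_up (r k : ℕ) (b : Bool) (c : ℕ → Bool) : insB r b c (up r k) = c k := by
  by_cases h : k < r
  · rw [up_lt h, insB_lt _ _ h]
  · rw [up_ge (by omega), insB_ge _ _ (by omega)]

/-- every ascent top satisfies `G` -/
def TopA (n : ℕ) (w : ℕ → ℕ) (G : ℕ → Prop) : Prop := ∀ i, i + 1 < n → w i < w (i + 1) → G (i + 1)
/-- every descent top satisfies `G` -/
def TopB (n : ℕ) (w : ℕ → ℕ) (G : ℕ → Prop) : Prop := ∀ i, i + 1 < n → w (i + 1) < w i → G i

lemma TopA_ins {n r : ℕ} (hr : r ≤ n) (w : ℕ → ℕ) {G G' : ℕ → Prop}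
    (hG : ∀ j < n, (G' (up r j) ↔ G j)) :
    TopA (n + 1) (insF r w) G' ↔ TopA n w G ∧ (r < n → G r) := by
  constructor
  · intro h
    have hr' : r < n → G r := by
      intro hrn
      have := h r (by omega) (by rw [insF_eq, insF_ge _ le_rfl]; omega)
      rwa [← up_ge (le_refl r), hG r hrn] at this
    refine ⟨?_, hr'⟩
    intro i hi hw
    rcases lt_trichotomy (i + 1) r with h1 | h1 | h1
    · have := h i (by omega) (by rw [insF_lt _ (by omega), insF_lt _ h1]; omega)
      rwa [← up_lt h1, hG _ hi] at this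
    · subst h1; exact hr' hi
    · have := h (i + 1) (by omega)
        (by rw [insF_ge _ (by omega), insF_ge _ (by omega)]; omega)
      rwa [← up_ge (show r ≤ i + 1 by omega), hG _ hi] at this
  · rintro ⟨h, hr'⟩ i hi hw
    rcases lt_trichotomy (i + 1) r with h1 | h1 | h1
    · rw [insF_lt _ (by omega), insF_lt _ h1] at hw
      rw [← up_lt h1, hG _ (by omega)]
      exact h i (by omega) (by omega)
    · rw [h1, insF_eq] at hw; omega
    · rcases Nat.lt_or_ge r i with h2 | h2
      · obtain ⟨j, rfl⟩ : ∃ j, i = j + 1 := ⟨i - 1, by omega⟩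
        rw [insF_ge _ (by omega), insF_ge _ (by omega)] at hw
        rw [← up_ge (show r ≤ j + 1 by omega), hG _ (by omega)]
        exact h j (by omega) (by omega)
      · have h3 : i = r := by omega
        subst h3
        rw [← up_ge (le_refl i), hG _ (by omega)]
        exact hr' (by omega)

lemma TopB_ins {n r : ℕ} (hr : r ≤ n) (w : ℕ → ℕ) {G G' : ℕ → Prop}
    (hG : ∀ j < n, (G' (up r j) ↔ G j)) :
    TopB (n + 1) (insF r w) G' ↔ TopB n w G ∧ (0 < r → G (r - 1)) := by
  constructor
  · intro h
    have hr' : 0 < r → G (r - 1) := by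
      intro hrn
      obtain ⟨s, rfl⟩ : ∃ s, r = s + 1 := ⟨r - 1, by omega⟩
      have := h s (by omega) (by rw [insF_eq, insF_lt _ (by omega)]; omega)
      rw [← up_lt (show s < s + 1 by omega), hG s (by omega)] at this
      simpa using this
    refine ⟨?_, hr'⟩
    intro i hi hw
    rcases lt_trichotomy (i + 1) r with h1 | h1 | h1
    · have := h i (by omega) (by
        rw [insF_lt (k := i) _ (by omega), insF_lt (k := i + 1) _ h1]; omega)
      rwa [← up_lt (show i < r by omega), hG _ (by omega)] at this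
    · subst h1; simpa using hr' (by omega)
    · have := h (i + 1) (by omega)
        (by rw [insF_ge _ (by omega), insF_ge _ (by omega)]; omega)
      rwa [← up_ge (show r ≤ i by omega), hG _ (by omega)] at this
  · rintro ⟨h, hr'⟩ i hi hw
    rcases lt_trichotomy (i + 1) r with h1 | h1 | h1
    · rw [insF_lt (k := i) _ (by omega), insF_lt (k := i + 1) _ h1] at hw
      rw [← up_lt (show i < r by omega), hG _ (by omega)]
      exact h i (by omega) (by omega)
    · rw [← up_lt (show i < r by omega), hG _ (by omega)]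
      have := hr' (by omega)
      rwa [← h1, Nat.add_sub_cancel] at this
    · rcases Nat.lt_or_ge r i with h2 | h2
      · obtain ⟨j, rfl⟩ : ∃ j, i = j + 1 := ⟨i - 1, by omega⟩
        rw [insF_ge _ (by omega), insF_ge _ (by omega)] at hw
        rw [← up_ge (show r ≤ j by omega), hG _ (by omega)]
        exact h j (by omega) (by omega)
      · have h3 : i = r := by omega
        subst h3
        rw [insF_eq] at hw
        omega

end Pool.Agent.R25.Dw
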