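import Pool.Agent.R25.Dw.Two

namespace Pool.Agent.R25.Dw

open Finset

def A2 (n : ℕ) (w : ℕ → ℕ) : Prop := ∀ i j k, i + 1 < j → j < k → k < n →
  ¬ (w i < w (i + 1) ∧ w (i + 1) < w j ∧ w i < w k ∧ w k < w (i + 1))
def B2 (n : ℕ) (w : ℕ → ℕ) : Prop := ∀ i j k, i + 1 < j → j < k → k < n →
  ¬ (w (i + 1) < w i ∧ w i < w j ∧ w (i + 1) < w k ∧ w k < w i)

lemma A2_ins {n r : ℕ} (hr : r ≤ n) (w : ℕ → ℕ) :
    A2 (n + 1) (insF r w) ↔ A2 n w ∧ (r < n → good2 n w r) := by
  constructor
  · intro h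
    have hg : r < n → good2 n w r := by
      intro _ k l h1 h2 h3 h4
      refine h r (k + 1) (l + 1) (by omega) (by omega) (by omega) ?_
      rw [insF_eq, insF_ge _ le_rfl, insF_ge _ (by omega), insF_ge _ (by omega)]
      omega
    refine ⟨?_, hg⟩
    intro i j k h1 h2 h3 h4
    rcases lt_trichotomy (i + 1) r with h5 | h5 | h5
    · refine h i (up r j) (up r k) (by unfold up; split_ifs <;> omega) (up_lt_up.mpr h2)
        ((up_lt_succ hr).mpr h3) ?_
      rw [insF_up, insF_up, insF_lt (k := i) _ (by omega), insF_lt (k := i + 1) _ h5]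
      omega
    · subst h5
      exact hg (by omega) j k (by omega) h2 h3 ⟨h4.2.1, h4.2.2.2⟩
    · refine h (i + 1) (j + 1) (k + 1) (by omega) (by omega) (by omega) ?_
      rw [insF_ge _ (by omega), insF_ge (k := i + 1) _ (by omega), insF_ge _ (by omega),
        insF_ge _ (by omega)]
      omega
  · rintro ⟨h, hg⟩ i j k h1 h2 h3 h4
    rcases lt_trichotomy (i + 1) r with h5 | h5 | h5
    · rw [insF_lt (k := i) _ (by omega), insF_lt (k := i + 1) _ h5] at h4
      rcases cases_up r j with rfl | ⟨j, rfl⟩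
      · rw [insF_eq] at h4; omega
      rcases cases_up r k with rfl | ⟨k, rfl⟩
      · rw [insF_eq] at h4; omega
      rw [insF_up, insF_up] at h4
      exact h i j k (by unfold up at h1; split_ifs at h1 <;> omega) (up_lt_up.mp h2)
        ((up_lt_succ hr).mp h3) (by omega)
    · subst h5
      rw [insF_eq] at h4; omega
    · obtain ⟨j, rfl⟩ : ∃ j', j = j' + 1 := ⟨j - 1, by omega⟩
      obtain ⟨k, rfl⟩ : ∃ k', k = k' + 1 := ⟨k - 1, by omega⟩
      rcases Nat.lt_or_ge r i with h6 | h6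
      · obtain ⟨i, rfl⟩ : ∃ i', i = i' + 1 := ⟨i - 1, by omega⟩
        rw [insF_ge _ (by omega), insF_ge (k := i + 1) _ (by omega), insF_ge _ (by omega),
          insF_ge _ (by omega)] at h4
        exact h i j k (by omega) (by omega) (by omega) (by omega)
      · have h7 : i = r := by omega
        subst h7
        rw [insF_eq, insF_ge _ le_rfl, insF_ge _ (by omega), insF_ge _ (by omega)] at h4
        exact hg (by omega) j k (by omega) (by omega) (by omega) ⟨by omega, by omega⟩

lemma B2_ins {n r : ℕ} (hr : r ≤ n) (w : ℕ → ℕ) :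
    B2 (n + 1) (insF r w) ↔ B2 n w ∧ (0 < r → good2 n w (r - 1)) := by
  constructor
  · intro h
    have hg : 0 < r → good2 n w (r - 1) := by
      intro h0 k l h1 h2 h3 h4
      obtain ⟨s, rfl⟩ : ∃ s, r = s + 1 := ⟨r - 1, by omega⟩
      rw [Nat.add_sub_cancel] at h4 h1
      refine h s (k + 1) (l + 1) (by omega) (by omega) (by omega) ?_
      rw [insF_eq, insF_lt _ (show s < s + 1 by omega), insF_ge _ (by omega),
        insF_ge _ (by omega)]
      omega
    refine ⟨?_, hg⟩
    intro i j k h1 h2 h3 h4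
    rcases lt_trichotomy (i + 1) r with h5 | h5 | h5
    · refine h i (up r j) (up r k) (by unfold up; split_ifs <;> omega) (up_lt_up.mpr h2)
        ((up_lt_succ hr).mpr h3) ?_
      rw [insF_up, insF_up, insF_lt (k := i) _ (by omega), insF_lt (k := i + 1) _ h5]
      omega
    · subst h5
      have := hg (by omega)
      rw [Nat.add_sub_cancel] at this
      exact this j k (by omega) h2 h3 ⟨h4.2.1, h4.2.2.2⟩
    · refine h (i + 1) (j + 1) (k + 1) (by omega) (by omega) (by omega) ?_
      rw [insF_ge (k := i) _ (by omega), insF_ge (k := i + 1) _ (by omega),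
        insF_ge _ (by omega), insF_ge _ (by omega)]
      omega
  · rintro ⟨h, hg⟩ i j k h1 h2 h3 h4
    rcases lt_trichotomy (i + 1) r with h5 | h5 | h5
    · rw [insF_lt (k := i) _ (by omega), insF_lt (k := i + 1) _ h5] at h4
      rcases cases_up r j with rfl | ⟨j, rfl⟩
      · rw [insF_eq] at h4; omega
      rcases cases_up r k with rfl | ⟨k, rfl⟩
      · rw [insF_eq] at h4; omega
      rw [insF_up, insF_up] at h4
      exact h i j k (by unfold up at h1; split_ifs at h1 <;> omega) (up_lt_up.mp h2)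
        ((up_lt_succ hr).mp h3) (by omega)
    · subst h5
      obtain ⟨j, rfl⟩ : ∃ j', j = j' + 1 := ⟨j - 1, by omega⟩
      obtain ⟨k, rfl⟩ : ∃ k', k = k' + 1 := ⟨k - 1, by omega⟩
      rw [insF_eq, insF_lt _ (show i < i + 1 by omega), insF_ge _ (by omega),
        insF_ge _ (by omega)] at h4
      have := hg (by omega)
      rw [Nat.add_sub_cancel] at this
      exact this j k (by omega) (by omega) (by omega) ⟨by omega, by omega⟩
    · obtain ⟨j, rfl⟩ : ∃ j', j = j' + 1 := ⟨j - 1, by omega⟩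
      obtain ⟨k, rfl⟩ : ∃ k', k = k' + 1 := ⟨k - 1, by omega⟩
      rcases Nat.lt_or_ge r i with h6 | h6
      · obtain ⟨i, rfl⟩ : ∃ i', i = i' + 1 := ⟨i - 1, by omega⟩
        rw [insF_ge (k := i) _ (by omega), insF_ge (k := i + 1) _ (by omega),
          insF_ge _ (by omega), insF_ge _ (by omega)] at h4
        exact h i j k (by omega) (by omega) (by omega) (by omega)
      · have h7 : i = r := by omega
        subst h7
        rw [insF_eq] at h4
        omega

/-- legal places, ascent version -/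
def PA2 (n : ℕ) (w : ℕ → ℕ) (c : ℕ → Bool) (r : ℕ) : Prop := r < n → Lg2 n w c r
/-- legal places, descent version -/
def PB2 (n : ℕ) (w : ℕ → ℕ) (c : ℕ → Bool) (r : ℕ) : Prop := 0 < r → Lg2 n w c (r - 1)

def OKA2 (n : ℕ) (w : ℕ → ℕ) (c : ℕ → Bool) : Prop := A2 n w ∧ TopA n w (fun j => c j = false)
def OKB2 (n : ℕ) (w : ℕ → ℕ) (c : ℕ → Bool) : Prop := B2 n w ∧ TopB n w (fun j => c j = false)

lemma OKA2_ins {n r : ℕ} (hr : r ≤ n) (w : ℕ → ℕ) (b : Bool) (c : ℕ → Bool) :
    OKA2 (n + 1) (insF r w) (insB r b c) ↔ OKA2 n w c ∧ PA2 n w c r := by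
  unfold OKA2 PA2 Lg2
  rw [A2_ins hr, TopA_ins hr w (G := fun j => c j = false)
    (fun j _ => by simp only [insB_up])]
  constructor
  · rintro ⟨⟨a1, a2⟩, a3, a4⟩
    exact ⟨⟨a1, a3⟩, fun h => ⟨a2 h, a4 h⟩⟩
  · rintro ⟨⟨a1, a3⟩, a2⟩
    exact ⟨⟨a1, fun h => (a2 h).1⟩, a3, fun h => (a2 h).2⟩

lemma OKB2_ins {n r : ℕ} (hr : r ≤ n) (w : ℕ → ℕ) (b : Bool) (c : ℕ → Bool) :
    OKB2 (n + 1) (insF r w) (insB r b c) ↔ OKB2 n w c ∧ PB2 n w c r := by
  unfold OKB2 PB2 Lg2
  rw [B2_ins hr, TopB_ins hr w (G := fun j => c j = false)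
    (fun j _ => by simp only [insB_up])]
  constructor
  · rintro ⟨⟨a1, a2⟩, a3, a4⟩
    exact ⟨⟨a1, a3⟩, fun h => ⟨a2 h, a4 h⟩⟩
  · rintro ⟨⟨a1, a3⟩, a2⟩
    exact ⟨⟨a1, fun h => (a2 h).1⟩, a3, fun h => (a2 h).2⟩

open Classical in
lemma stA2 {n r : ℕ} (hr : r ≤ n) (w : ℕ → ℕ) (c : ℕ → Bool) (hP : PA2 n w c r) (b : Bool) :
    st2 PA2 (n + 1) (insF r w) (insB r b c) = List.range (vv n w c r + (if b then 1 else 2))
        ++ lst (PA2 n w c) (vv n w c) (r + 1) (n - r) := by
  unfold st2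
  rw [show n + 1 + 1 = r + (1 + (1 + (n - r))) by omega, lst_add, lst_add, lst_add,
    Nat.zero_add, lst_one, lst_one]
  have hlow : ∀ j < r, (PA2 (n + 1) (insF r w) (insB r b c) j ↔ Lg2 n w c j ∧ RL w j r) := by
    intro j hj
    unfold PA2
    rw [Lg2_low hr w b c hj]
    have : j < n + 1 := by omega
    simp [this]
  have e1 : lst (PA2 (n + 1) (insF r w) (insB r b c)) (vv (n + 1) (insF r w) (insB r b c)) 0 r
      = List.range (vv n w c r) := by
    rw [lst_range]
    · rw [cnt_congr hlow]; rfl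
    · intro j hj _
      rw [vv_low hr w b c (le_of_lt hj)]
      exact (cnt_congr (fun k hk => hlow k (by omega))).symm
  have e2 : (PA2 (n + 1) (insF r w) (insB r b c) r) ↔ b = false := by
    unfold PA2
    rw [Lg2_self hr]
    have : r < n + 1 := by omega
    simp [this]
  have e3 : vv (n + 1) (insF r w) (insB r b c) r = vv n w c r := vv_low hr w b c le_rfl
  have hhigh : ∀ k, r ≤ k → (PA2 (n + 1) (insF r w) (insB r b c) (k + 1) ↔ PA2 n w c k) := by
    intro k hk
    unfold PA2
    rw [Lg2_high hr w b c hk]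
    simp
  have e4 : PA2 (n + 1) (insF r w) (insB r b c) (r + 1) := (hhigh r le_rfl).mpr hP
  have e5 := vv_self hr w b c
  have e6 : lst (PA2 (n + 1) (insF r w) (insB r b c)) (vv (n + 1) (insF r w) (insB r b c))
      (r + 1 + 1) (n - r) = lst (PA2 n w c) (vv n w c) (r + 1) (n - r) := by
    refine lst_shift _ _ _ _ _ _ (fun k h1 _ => ⟨hhigh k (by omega), ?_⟩)
    exact vv_high hr w b c (by omega)
  rw [e1, e6, if_pos e4, e5, e3]
  cases b
  · rw [if_pos (e2.mpr rfl)]
    simp only [Bool.false_eq_true, if_false]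
    rw [show vv n w c r + 2 = (vv n w c r + 1) + 1 from rfl, List.range_succ, List.range_succ]
    simp
  · rw [if_neg (fun h => by simpa using e2.mp h)]
    simp only [if_true]
    rw [List.range_succ]
    simp

open Classical in
lemma stB2 {n r : ℕ} (hr : r ≤ n) (w : ℕ → ℕ) (c : ℕ → Bool) (b : Bool) :
    st2 PB2 (n + 1) (insF r w) (insB r b c) = List.range (vv n w c r + (if b then 1 else 2))
        ++ lst (PB2 n w c) (vv n w c) (r + 1) (n - r) := by
  unfold st2
  rw [show n + 1 + 1 = (r + 1) + (1 + (n - r)) by omega, lst_add _ _ (r + 1) (1 + (n - r)),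
    lst_add _ _ 1 (n - r), Nat.zero_add, lst_one]
  have hlow : ∀ j < r, (PB2 (n + 1) (insF r w) (insB r b c) (j + 1) ↔
      Lg2 n w c j ∧ RL w j r) := by
    intro j hj
    unfold PB2
    rw [Nat.add_sub_cancel, Lg2_low hr w b c hj]
    simp
  have h0 : PB2 (n + 1) (insF r w) (insB r b c) 0 := by intro h; omega
  have hc : ∀ j ≤ r, cnt (PB2 (n + 1) (insF r w) (insB r b c)) (j + 1)
      = cnt (fun j => Lg2 n w c j ∧ RL w j r) j + 1 := by
    intro j hj
    rw [cnt_ins (P := fun j => Lg2 n w c j ∧ RL w j r) (Nat.zero_le j)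
      (by intro k hk; omega) (fun k _ hk => hlow k (by omega)), if_pos h0]
  have e1 : lst (PB2 (n + 1) (insF r w) (insB r b c)) (vv (n + 1) (insF r w) (insB r b c)) 0
      (r + 1) = List.range (vv n w c r + 1) := by
    rw [lst_range]
    · rw [hc r le_rfl]; rfl
    · intro j hj hPj
      rw [vv_low hr w b c (show j ≤ r by omega)]
      rcases Nat.eq_zero_or_pos j with h | h
      · subst h; simp [cnt_zero]
      · obtain ⟨i, rfl⟩ : ∃ i, j = i + 1 := ⟨j - 1, by omega⟩
        rw [hc i (by omega), cnt_succ, if_pos ((hlow i (by omega)).mp hPj)]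
  have e2 : (PB2 (n + 1) (insF r w) (insB r b c) (r + 1)) ↔ b = false := by
    unfold PB2
    rw [Nat.add_sub_cancel, Lg2_self hr]
    simp
  have hhigh : ∀ k, r + 1 ≤ k →
      (PB2 (n + 1) (insF r w) (insB r b c) (k + 1) ↔ PB2 n w c k) := by
    intro k hk
    unfold PB2
    obtain ⟨j, rfl⟩ : ∃ j, k = j + 1 := ⟨k - 1, by omega⟩
    rw [Nat.add_sub_cancel, Nat.add_sub_cancel, Lg2_high hr w b c (by omega)]
    simp
  have e5 := vv_self hr w b c
  have e6 : lst (PB2 (n + 1) (insF r w) (insB r b c)) (vv (n + 1) (insF r w) (insB r b c))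
      (r + 1 + 1) (n - r) = lst (PB2 n w c) (vv n w c) (r + 1) (n - r) := by
    refine lst_shift _ _ _ _ _ _ (fun k h1 _ => ⟨hhigh k (by omega), ?_⟩)
    exact vv_high hr w b c (by omega)
  rw [e1, e6, e5]
  cases b
  · rw [if_pos (e2.mpr rfl)]
    simp only [Bool.false_eq_true, if_false]
    rw [show vv n w c r + 2 = (vv n w c r + 1) + 1 from rfl, List.range_succ (n := vv n w c r + 1)]
    simp
  · rw [if_neg (fun h => by simpa using e2.mp h)]
    simp

variable {K : Type*} [CommRing K]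

open Classical in
theorem HA2 (q : K) (n : ℕ) (w : ℕ → ℕ) (c : ℕ → Bool) (f : List ℕ → K) :
    (∑ r ∈ range (n + 1), ∑ b : Bool, if OKA2 (n + 1) (insF r w) (insB r b c) then
        (if b then q - 1 else 1) * f (st2 PA2 (n + 1) (insF r w) (insB r b c)) else 0)
      = if OKA2 n w c then Step2 q f (st2 PA2 n w c) else 0 := by
  by_cases h : OKA2 n w c
  · rw [if_pos h, ← step2_general q PA2 n w c (fun r hr hP b => stA2 hr w c hP b) f]
    refine Finset.sum_congr rfl (fun r hr => ?_)
    have hr' : r ≤ n := by have := Finset.mem_range.mp hr; omega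
    by_cases hP : PA2 n w c r
    · rw [if_pos hP]
      refine Finset.sum_congr rfl (fun b _ => ?_)
      rw [if_pos ((OKA2_ins hr' w b c).mpr ⟨h, hP⟩)]
    · rw [if_neg hP]
      refine Finset.sum_eq_zero (fun b _ => ?_)
      rw [if_neg (fun h' => hP ((OKA2_ins hr' w b c).mp h').2)]
  · rw [if_neg h]
    refine Finset.sum_eq_zero (fun r hr => Finset.sum_eq_zero (fun b _ => ?_))
    have hr' : r ≤ n := by have := Finset.mem_range.mp hr; omega
    rw [if_neg (fun h' => h ((OKA2_ins hr' w b c).mp h').1)]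

open Classical in
theorem HB2 (q : K) (n : ℕ) (w : ℕ → ℕ) (c : ℕ → Bool) (f : List ℕ → K) :
    (∑ r ∈ range (n + 1), ∑ b : Bool, if OKB2 (n + 1) (insF r w) (insB r b c) then
        (if b then q - 1 else 1) * f (st2 PB2 (n + 1) (insF r w) (insB r b c)) else 0)
      = if OKB2 n w c then Step2 q f (st2 PB2 n w c) else 0 := by
  by_cases h : OKB2 n w c
  · rw [if_pos h, ← step2_general q PB2 n w c (fun r hr _ b => stB2 hr w c b) f]
    refine Finset.sum_congr rfl (fun r hr => ?_)
    have hr' : r ≤ n := by have := Finset.mem_range.mp hr; omega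
    by_cases hP : PB2 n w c r
    · rw [if_pos hP]
      refine Finset.sum_congr rfl (fun b _ => ?_)
      rw [if_pos ((OKB2_ins hr' w b c).mpr ⟨h, hP⟩)]
    · rw [if_neg hP]
      refine Finset.sum_eq_zero (fun b _ => ?_)
      rw [if_neg (fun h' => hP ((OKB2_ins hr' w b c).mp h').2)]
  · rw [if_neg h]
    refine Finset.sum_eq_zero (fun r hr => Finset.sum_eq_zero (fun b _ => ?_))
    have hr' : r ≤ n := by have := Finset.mem_range.mp hr; omega
    rw [if_neg (fun h' => h ((OKB2_ins hr' w b c).mp h').1)]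

open Classical in
/-- flagged totals of the two classes agree (second question) -/
theorem total2 (q : K) (n : ℕ) :
    S n (fun w c => if OKA2 n w c then wp q n c else 0)
    = S n (fun w c => if OKB2 n w c then wp q n c else 0) := by
  have hA := S_step q OKA2 (st2 PA2) (Step2 q) (HA2 q)
    ⟨by intro i j k h1 h2 h3; omega, by intro i hi; omega⟩ n (fun _ => 1)
  have hB := S_step q OKB2 (st2 PB2) (Step2 q) (HB2 q)
    ⟨by intro i j k h1 h2 h3; omega, by intro i hi; omega⟩ n (fun _ => 1)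
  simp only [mul_one] at hA hB
  rw [hA, hB]
  have h1 : PA2 0 (fun _ => 0) (fun _ => false) 0 := by intro h; omega
  have h2 : PB2 0 (fun _ => 0) (fun _ => false) 0 := by intro h; omega
  have e : st2 PA2 0 (fun _ => 0) (fun _ => false) = st2 PB2 0 (fun _ => 0) (fun _ => false) := by
    unfold st2
    simp [lst, h1, h2]
  rw [e]

end Pool.Agent.R25.Dw
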