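import Pool.Agent.R25.Dw.OneAB
import Pool.Agent.R25.Dw.TwoAB

namespace Pool.Agent.R25.Dw

open Finset

lemma vf_inj {n : ℕ} (s : Equiv.Perm (Fin n)) {i j : ℕ} (hi : i < n) (hj : j < n)
    (h : vf s i = vf s j) : i = j := by
  simp only [vf, hi, hj, dif_pos] at h
  have := s.injective (Fin.ext h)
  simpa using this

lemma vf_lt {n : ℕ} (s : Equiv.Perm (Fin n)) {i : ℕ} (hi : i < n) : vf s i < n := by
  simp only [vf, hi, dif_pos]
  exact (s ⟨i, hi⟩).isLt

/-- non ascent tops -/
def NA (w : ℕ → ℕ) (k : ℕ) : Prop := ¬ (0 < k ∧ w (k - 1) < w k)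
/-- non descent tops -/
def ND (n : ℕ) (w : ℕ → ℕ) (k : ℕ) : Prop := ¬ (k + 1 < n ∧ w (k + 1) < w k)

/-- descents -/
noncomputable def dd (n : ℕ) (w : ℕ → ℕ) : ℕ := cnt (fun i => i + 1 < n ∧ w (i + 1) < w i) n
/-- ascents -/
noncomputable def aa (n : ℕ) (w : ℕ → ℕ) : ℕ := cnt (fun i => i + 1 < n ∧ w i < w (i + 1)) n

lemma cnt_NA {m : ℕ} (s : Equiv.Perm (Fin (m + 1))) :
    cnt (NA (vf s)) (m + 1) = dd (m + 1) (vf s) + 1 := by
  have h0 : NA (vf s) 0 := by unfold NA; omega
  rw [cnt_ins (P := fun j => ¬ vf s j < vf s (j + 1)) (Nat.zero_le m)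
    (by intro k hk; omega) (by intro k _ hk; unfold NA; simp), if_pos h0]
  congr 1
  unfold dd
  rw [cnt_succ, if_neg (by omega), add_zero]
  refine cnt_congr (fun k hk => ?_)
  constructor
  · intro h
    have : vf s k ≠ vf s (k + 1) := fun h' => by
      have := vf_inj s (show k < m + 1 by omega) (show k + 1 < m + 1 by omega) h'
      omega
    exact ⟨by omega, by omega⟩
  · intro h; omega

lemma cnt_ND {m : ℕ} (s : Equiv.Perm (Fin (m + 1))) :
    cnt (ND (m + 1) (vf s)) (m + 1) = aa (m + 1) (vf s) + 1 := by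
  have h0 : ND (m + 1) (vf s) m := by unfold ND; omega
  rw [cnt_succ, if_pos h0]
  congr 1
  unfold aa
  rw [cnt_succ, if_neg (by omega), add_zero]
  refine cnt_congr (fun k hk => ?_)
  unfold ND
  constructor
  · intro h
    have : vf s k ≠ vf s (k + 1) := fun h' => by
      have := vf_inj s (show k < m + 1 by omega) (show k + 1 < m + 1 by omega) h'
      omega
    exact ⟨by omega, by omega⟩
  · intro h; omega

lemma TopA_flag (n : ℕ) (w : ℕ → ℕ) (c : ℕ → Bool) :
    TopA n w (fun j => c j = false) ↔ ∀ k < n, c k = true → NA w k := by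
  constructor
  · intro h k hk hc
    unfold NA
    rintro ⟨h1, h2⟩
    obtain ⟨j, rfl⟩ : ∃ j, k = j + 1 := ⟨k - 1, by omega⟩
    rw [Nat.add_sub_cancel] at h2
    have := h j hk h2
    simp [this] at hc
  · intro h i hi hw
    by_contra hc
    simp only [Bool.not_eq_false] at hc
    exact h (i + 1) hi hc ⟨by omega, by simpa using hw⟩

lemma TopB_flag (n : ℕ) (w : ℕ → ℕ) (c : ℕ → Bool) :
    TopB n w (fun j => c j = false) ↔ ∀ k < n, c k = true → ND n w k := by
  constructor
  · intro h k hk hc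
    unfold ND
    rintro ⟨h1, h2⟩
    have := h k h1 h2
    simp [this] at hc
  · intro h i hi hw
    by_contra hc
    simp only [Bool.not_eq_false] at hc
    exact h i (by omega) hc ⟨hi, hw⟩

variable {K : Type*} [CommRing K]

open Classical in
/-- summing over all flag choices -/
lemma flag_sum (q : K) (n : ℕ) (N : ℕ → Prop) :
    ∑ c : Fin n → Bool, (if (∀ k < n, bf c k = true → N k) then wp q n (bf c) else 0)
    = q ^ (cnt N n) := by
  have e1 : ∀ c : Fin n → Bool,
      (if (∀ k < n, bf c k = true → N k) then wp q n (bf c) else 0)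
      = ∏ k : Fin n, (if c k = true then (if N k then q - 1 else 0) else 1) := by
    intro c
    by_cases h : ∀ k < n, bf c k = true → N k
    · rw [if_pos h]
      unfold wp
      rw [Finset.prod_range]
      refine Finset.prod_congr rfl (fun k _ => ?_)
      have hk : bf c (k : ℕ) = c k := by simp [bf]
      rw [hk]
      by_cases hc : c k = true
      · rw [if_pos hc, if_pos hc, if_pos (h k k.isLt (by rw [hk]; exact hc))]
      · rw [if_neg hc, if_neg hc]
    · rw [if_neg h]
      push Not at h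
      obtain ⟨k, hk, hc, hN⟩ := h
      symm
      apply Finset.prod_eq_zero (Finset.mem_univ (⟨k, hk⟩ : Fin n))
      have : c ⟨k, hk⟩ = true := by simpa [bf, hk] using hc
      rw [if_pos this, if_neg hN]
  rw [Finset.sum_congr rfl (fun c _ => e1 c)]
  have e2 := Finset.prod_univ_sum (ι := Fin n) (κ := fun _ => Bool) (fun _ => (univ : Finset Bool))
    (fun k b => if b = true then (if N (k : ℕ) then q - 1 else 0) else (1 : K))
  rw [Fintype.piFinset_univ] at e2
  rw [← e2]
  have e3 : ∀ k : Fin n, (∑ b : Bool, (if b = true then (if N (k : ℕ) then q - 1 else 0)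
      else (1 : K))) = q ^ (if N (k : ℕ) then 1 else 0) := by
    intro k
    rw [Fintype.sum_bool]
    by_cases h : N (k : ℕ) <;> simp [h]
  rw [Finset.prod_congr rfl (fun k _ => e3 k)]
  unfold cnt
  rw [Finset.prod_pow_eq_pow_sum, Finset.sum_range]

/-! locality -/

lemma TopA_congr {n : ℕ} {w w' : ℕ → ℕ} {G G' : ℕ → Prop} (hw : ∀ k < n, w k = w' k)
    (hG : ∀ k < n, (G k ↔ G' k)) : TopA n w G ↔ TopA n w' G' := by
  unfold TopA
  refine forall_congr' (fun i => forall_congr' (fun hi => ?_))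
  rw [hw i (by omega), hw (i + 1) hi, hG (i + 1) hi]

lemma TopB_congr {n : ℕ} {w w' : ℕ → ℕ} {G G' : ℕ → Prop} (hw : ∀ k < n, w k = w' k)
    (hG : ∀ k < n, (G k ↔ G' k)) : TopB n w G ↔ TopB n w' G' := by
  unfold TopB
  refine forall_congr' (fun i => forall_congr' (fun hi => ?_))
  rw [hw i (by omega), hw (i + 1) hi, hG i (by omega)]

lemma good1_congr {n : ℕ} {w w' : ℕ → ℕ} (hw : ∀ k < n, w k = w' k) {j : ℕ} (hj : j < n) :
    good1 n w j ↔ good1 n w' j := by
  unfold good1
  refine forall_congr' (fun k => forall_congr' (fun l => forall_congr' (fun h1 =>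
    forall_congr' (fun h2 => forall_congr' (fun h3 => ?_)))))
  rw [hw k (by omega), hw l h3, hw j hj]

lemma A2_congr {n : ℕ} {w w' : ℕ → ℕ} (hw : ∀ k < n, w k = w' k) : A2 n w ↔ A2 n w' := by
  unfold A2
  refine forall_congr' (fun i => forall_congr' (fun j => forall_congr' (fun k =>
    forall_congr' (fun h1 => forall_congr' (fun h2 => forall_congr' (fun h3 => ?_))))))
  rw [hw k h3, hw j (by omega), hw i (by omega), hw (i + 1) (by omega)]

lemma B2_congr {n : ℕ} {w w' : ℕ → ℕ} (hw : ∀ k < n, w k = w' k) : B2 n w ↔ B2 n w' := by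
  unfold B2
  refine forall_congr' (fun i => forall_congr' (fun j => forall_congr' (fun k =>
    forall_congr' (fun h1 => forall_congr' (fun h2 => forall_congr' (fun h3 => ?_))))))
  rw [hw k h3, hw j (by omega), hw i (by omega), hw (i + 1) (by omega)]

lemma wp_congr (q : K) {n : ℕ} {c c' : ℕ → Bool} (hc : ∀ k < n, c k = c' k) :
    wp q n c = wp q n c' := by
  unfold wp
  refine Finset.prod_congr rfl (fun k hk => ?_)
  rw [hc k (Finset.mem_range.mp hk)]

lemma TopA_and (n : ℕ) (w : ℕ → ℕ) (G H : ℕ → Prop) :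
    TopA n w (fun j => G j ∧ H j) ↔ TopA n w G ∧ TopA n w H := by
  unfold TopA
  constructor
  · intro h
    exact ⟨fun i hi hw => (h i hi hw).1, fun i hi hw => (h i hi hw).2⟩
  · rintro ⟨h1, h2⟩ i hi hw
    exact ⟨h1 i hi hw, h2 i hi hw⟩

lemma TopB_and (n : ℕ) (w : ℕ → ℕ) (G H : ℕ → Prop) :
    TopB n w (fun j => G j ∧ H j) ↔ TopB n w G ∧ TopB n w H := by
  unfold TopB
  constructor
  · intro h
    exact ⟨fun i hi hw => (h i hi hw).1, fun i hi hw => (h i hi hw).2⟩
  · rintro ⟨h1, h2⟩ i hi hw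
    exact ⟨h1 i hi hw, h2 i hi hw⟩

lemma OKA1_iff (n : ℕ) (w : ℕ → ℕ) (c : ℕ → Bool) :
    OKA1 n w c ↔ TopA n w (good1 n w) ∧ TopA n w (fun j => c j = false) := by
  unfold OKA1
  rw [← TopA_and]
  rfl
lemma OKB1_iff (n : ℕ) (w : ℕ → ℕ) (c : ℕ → Bool) :
    OKB1 n w c ↔ TopB n w (good1 n w) ∧ TopB n w (fun j => c j = false) := by
  unfold OKB1
  rw [← TopB_and]
  rfl

open Classical in
/-- evaluate the flagged total, ascent version -/
lemma eval_A (q : K) {m : ℕ} (C : (ℕ → ℕ) → Prop) (OK : (ℕ → ℕ) → (ℕ → Bool) → Prop)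
    (hOK : ∀ w c, OK w c ↔ C w ∧ TopA (m + 1) w (fun j => c j = false))
    (hC : ∀ w w', (∀ k < m + 1, w k = w' k) → (C w ↔ C w')) :
    S (m + 1) (fun w c => if OK w c then wp q (m + 1) c else 0)
    = q * ∑ s : Equiv.Perm (Fin (m + 1)), (if C (vf s) then q ^ dd (m + 1) (vf s) else 0) := by
  rw [← sum_eq_S]
  · rw [Finset.mul_sum]
    refine Finset.sum_congr rfl (fun s _ => ?_)
    by_cases h : C (vf s)
    · rw [if_pos h, ← pow_succ', ← cnt_NA, ← flag_sum q (m + 1) (NA (vf s))]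
      refine Finset.sum_congr rfl (fun c _ => ?_)
      refine if_congr ?_ rfl rfl
      rw [hOK, TopA_flag]
      exact ⟨fun h => h.2, fun h' => ⟨h, h'⟩⟩
    · rw [if_neg h, mul_zero]
      refine Finset.sum_eq_zero (fun c _ => ?_)
      rw [if_neg (fun h' => h ((hOK _ _).mp h').1)]
  · intro w w' c c' hw hc
    have e : OK w c ↔ OK w' c' := by
      rw [hOK, hOK, hC w w' hw, TopA_congr hw (fun k hk => by rw [hc k hk])]
    simp only [e, wp_congr q hc]

open Classical in
/-- evaluate the flagged total, descent version -/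
lemma eval_B (q : K) {m : ℕ} (C : (ℕ → ℕ) → Prop) (OK : (ℕ → ℕ) → (ℕ → Bool) → Prop)
    (hOK : ∀ w c, OK w c ↔ C w ∧ TopB (m + 1) w (fun j => c j = false))
    (hC : ∀ w w', (∀ k < m + 1, w k = w' k) → (C w ↔ C w')) :
    S (m + 1) (fun w c => if OK w c then wp q (m + 1) c else 0)
    = q * ∑ s : Equiv.Perm (Fin (m + 1)), (if C (vf s) then q ^ aa (m + 1) (vf s) else 0) := by
  rw [← sum_eq_S]
  · rw [Finset.mul_sum]
    refine Finset.sum_congr rfl (fun s _ => ?_)
    by_cases h : C (vf s)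
    · rw [if_pos h, ← pow_succ', ← cnt_ND, ← flag_sum q (m + 1) (ND (m + 1) (vf s))]
      refine Finset.sum_congr rfl (fun c _ => ?_)
      refine if_congr ?_ rfl rfl
      rw [hOK, TopB_flag]
      exact ⟨fun h => h.2, fun h' => ⟨h, h'⟩⟩
    · rw [if_neg h, mul_zero]
      refine Finset.sum_eq_zero (fun c _ => ?_)
      rw [if_neg (fun h' => h ((hOK _ _).mp h').1)]
  · intro w w' c c' hw hc
    have e : OK w c ↔ OK w' c' := by
      rw [hOK, hOK, hC w w' hw, TopB_congr hw (fun k hk => by rw [hc k hk])]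
    simp only [e, wp_congr q hc]

open Classical in
theorem main1 (q : K) (m : ℕ) :
    q * ∑ s : Equiv.Perm (Fin (m + 1)),
      (if TopA (m + 1) (vf s) (good1 (m + 1) (vf s)) then q ^ dd (m + 1) (vf s) else 0)
    = q * ∑ s : Equiv.Perm (Fin (m + 1)),
      (if TopB (m + 1) (vf s) (good1 (m + 1) (vf s)) then q ^ aa (m + 1) (vf s) else 0) := by
  rw [← eval_A q (fun w => TopA (m + 1) w (good1 (m + 1) w)) (OKA1 (m + 1))
      (fun w c => OKA1_iff _ w c)
      (fun w w' hw => TopA_congr hw (fun k hk => good1_congr hw hk)),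
    ← eval_B q (fun w => TopB (m + 1) w (good1 (m + 1) w)) (OKB1 (m + 1))
      (fun w c => OKB1_iff _ w c)
      (fun w w' hw => TopB_congr hw (fun k hk => good1_congr hw hk))]
  exact total1 q (m + 1)

open Classical in
theorem main2 (q : K) (m : ℕ) :
    q * ∑ s : Equiv.Perm (Fin (m + 1)),
      (if A2 (m + 1) (vf s) then q ^ dd (m + 1) (vf s) else 0)
    = q * ∑ s : Equiv.Perm (Fin (m + 1)),
      (if B2 (m + 1) (vf s) then q ^ aa (m + 1) (vf s) else 0) := by
  rw [← eval_A q (A2 (m + 1)) (OKA2 (m + 1)) (fun w c => Iff.rfl)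
      (fun w w' hw => A2_congr hw),
    ← eval_B q (B2 (m + 1)) (OKB2 (m + 1)) (fun w c => Iff.rfl)
      (fun w w' hw => B2_congr hw)]
  exact total2 q (m + 1)

end Pool.Agent.R25.Dw
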