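import Pool.Agent.R25.Dw.Cnt

namespace Pool.Agent.R25.Dw

open Finset

/-- no 132 starting at position `j` -/
def good1 (n : ℕ) (w : ℕ → ℕ) (j : ℕ) : Prop :=
  ∀ k l, j < k → k < l → l < n → ¬ (w j < w l ∧ w l < w k)
/-- the word is increasing from position `r` on -/
def inc (n : ℕ) (w : ℕ → ℕ) (r : ℕ) : Prop := ∀ k l, r ≤ k → k < l → l < n → ¬ w l < w k

lemma inc_mono {n : ℕ} {w : ℕ → ℕ} {r s : ℕ} (h : r ≤ s) (hi : inc n w r) : inc n w s :=
  fun k l hk hl hn => hi k l (by omega) hl hn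

lemma good1_up {n r : ℕ} (hr : r ≤ n) (w : ℕ → ℕ) (j : ℕ) :
    good1 (n + 1) (insF r w) (up r j) ↔ good1 n w j := by
  constructor
  · intro h k l h1 h2 h3 h4
    refine h (up r k) (up r l) (up_lt_up.mpr h1) (up_lt_up.mpr h2)
      ((up_lt_succ hr).mpr h3) ?_
    rw [insF_up, insF_up, insF_up]
    omega
  · intro h k l h1 h2 h3 h4
    rcases cases_up r l with rfl | ⟨l, rfl⟩
    · rw [insF_eq] at h4; omega
    rcases cases_up r k with rfl | ⟨k, rfl⟩
    · rw [insF_eq] at h4; omega
    rw [insF_up, insF_up, insF_up] at h4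
    exact h k l (up_lt_up.mp h1) (up_lt_up.mp h2) ((up_lt_succ hr).mp h3) (by omega)

lemma good1_self {n r : ℕ} (hr : r ≤ n) (w : ℕ → ℕ) :
    good1 (n + 1) (insF r w) r ↔ inc n w r := by
  constructor
  · intro h k l h1 h2 h3 h4
    refine h (up r k) (up r l) (self_lt_up.mpr h1) (up_lt_up.mpr h2)
      ((up_lt_succ hr).mpr h3) ?_
    rw [insF_up, insF_up, insF_eq]
    omega
  · intro h k l h1 h2 h3 h4
    rcases cases_up r l with rfl | ⟨l, rfl⟩
    · omega
    rcases cases_up r k with rfl | ⟨k, rfl⟩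
    · omega
    rw [insF_up, insF_up] at h4
    exact h k l (self_lt_up.mp h1) (up_lt_up.mp h2) ((up_lt_succ hr).mp h3) (by omega)

lemma inc_low {n r s : ℕ} (hr : r ≤ n) (w : ℕ → ℕ) (hs : s < r) :
    ¬ inc (n + 1) (insF r w) s := by
  intro h
  refine h s r le_rfl hs (by omega) ?_
  rw [insF_eq, insF_lt _ hs]; omega

lemma inc_self {n r : ℕ} (hr : r ≤ n) (w : ℕ → ℕ) :
    inc (n + 1) (insF r w) r ↔ inc n w r := by
  constructor
  · intro h k l h1 h2 h3 h4
    refine h (up r k) (up r l) (le_of_lt (self_lt_up.mpr h1)) (up_lt_up.mpr h2)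
      ((up_lt_succ hr).mpr h3) ?_
    rw [insF_up, insF_up]
    omega
  · intro h k l h1 h2 h3 h4
    rcases cases_up r l with rfl | ⟨l, rfl⟩
    · omega
    rcases cases_up r k with rfl | ⟨k, rfl⟩
    · rw [insF_eq] at h4; omega
    rw [insF_up, insF_up] at h4
    refine h k l ?_ (up_lt_up.mp h2) ((up_lt_succ hr).mp h3) (by omega)
    by_contra hk
    have : up r k < r := up_lt_self.mpr (by omega)
    omega

lemma inc_high {n r s : ℕ} (hr : r ≤ n) (w : ℕ → ℕ) (hs : r ≤ s) :
    inc (n + 1) (insF r w) (s + 1) ↔ inc n w s := by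
  constructor
  · intro h k l h1 h2 h3 h4
    refine h (up r k) (up r l) ?_ (up_lt_up.mpr h2)
      ((up_lt_succ hr).mpr h3) ?_
    · rw [up_ge (show r ≤ k by omega)]; omega
    rw [insF_up, insF_up]
    omega
  · intro h k l h1 h2 h3 h4
    obtain ⟨k, rfl⟩ : ∃ k', k = k' + 1 := ⟨k - 1, by omega⟩
    obtain ⟨l, rfl⟩ : ∃ l', l = l' + 1 := ⟨l - 1, by omega⟩
    rw [insF_ge _ (by omega), insF_ge _ (by omega)] at h4
    exact h k l (by omega) (by omega) (by omega) (by omega)

/-- legal letters (first question) -/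
def Lg1 (n : ℕ) (w : ℕ → ℕ) (c : ℕ → Bool) (j : ℕ) : Prop := good1 n w j ∧ c j = false

lemma Lg1_up {n r : ℕ} (hr : r ≤ n) (w : ℕ → ℕ) (b : Bool) (c : ℕ → Bool) (j : ℕ) :
    Lg1 (n + 1) (insF r w) (insB r b c) (up r j) ↔ Lg1 n w c j := by
  unfold Lg1
  rw [good1_up hr, insB_up]

lemma Lg1_self {n r : ℕ} (hr : r ≤ n) (w : ℕ → ℕ) (b : Bool) (c : ℕ → Bool) :
    Lg1 (n + 1) (insF r w) (insB r b c) r ↔ inc n w r ∧ b = false := by
  unfold Lg1
  rw [good1_self hr, insB_eq]

variable {K : Type*} [CommRing K]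

/-- common succession rule for the first question -/
noncomputable def Step1 (q : K) (f : ℕ × ℕ → K) (s : ℕ × ℕ) : K :=
  (s.1 : K) * (q * f s) + ∑ x ∈ range s.2,
    (f (s.1 + x, s.2 - x + 1) + (q - 1) * f (s.1 + x, s.2 - x))

/-- legal places outside / inside the final increasing region -/
noncomputable def st1 (P : ℕ → (ℕ → ℕ) → (ℕ → Bool) → ℕ → Prop)
    (n : ℕ) (w : ℕ → ℕ) (c : ℕ → Bool) : ℕ × ℕ :=
  (cnt (fun r => P n w c r ∧ ¬ inc n w r) (n + 1), cnt (fun r => P n w c r ∧ inc n w r) (n + 1))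

lemma cnt_split (P I : ℕ → Prop) (n : ℕ) :
    cnt P n = cnt (fun r => P r ∧ ¬ I r) n + cnt (fun r => P r ∧ I r) n := by
  induction n with
  | zero => simp [cnt_zero]
  | succ n ih =>
    rw [cnt_succ, cnt_succ, cnt_succ, ih]
    by_cases h1 : P n <;> by_cases h2 : I n <;> simp [h1, h2] <;> omega

lemma cnt_false {P : ℕ → Prop} {n : ℕ} (h : ∀ k < n, ¬ P k) : cnt P n = 0 := by
  unfold cnt
  refine Finset.sum_eq_zero (fun k hk => ?_)
  rw [if_neg (h k (Finset.mem_range.mp hk))]

open Classical in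
lemma sum_split (P I : ℕ → Prop) (hI : ∀ r s, r ≤ s → I r → I s) (g : ℕ → K) (a : K) (n : ℕ) :
    ∑ r ∈ range n, (if P r then (if I r then g (cnt P r) else a) else 0)
    = (cnt (fun r => P r ∧ ¬ I r) n : K) * a
      + ∑ x ∈ range (cnt (fun r => P r ∧ I r) n), g (cnt (fun r => P r ∧ ¬ I r) n + x) := by
  induction n with
  | zero => simp [cnt_zero]
  | succ n ih =>
    rw [Finset.sum_range_succ, ih, cnt_succ, cnt_succ]
    by_cases h1 : P n
    · by_cases h2 : I n
      · simp only [h1, h2, if_true, not_true_eq_false, and_false, if_false, and_true, add_zero,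
          Finset.sum_range_succ]
        rw [cnt_split P I n]
        ring
      · have h3 : cnt (fun r => P r ∧ I r) n = 0 :=
          cnt_false (fun k hk h => h2 (hI k n (by omega) h.2))
        simp only [h1, h2, h3, if_true, not_false_eq_true, and_true, if_false, add_zero,
          Finset.sum_range_zero, and_self, Nat.cast_add, Nat.cast_one, and_false]
        ring
    · simp [h1]

open Classical in
/-- counting legal places after an insertion -/
lemma step1_general (q : K) (P : ℕ → (ℕ → ℕ) → (ℕ → Bool) → ℕ → Prop) (n : ℕ) (w : ℕ → ℕ)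
    (c : ℕ → Bool)
    (hP1 : ∀ r ≤ n, P n w c r → inc n w r → ∀ b : Bool,
      st1 P (n + 1) (insF r w) (insB r b c) = (cnt (P n w c) r,
        cnt (fun k => P n w c k ∧ r ≤ k) (n + 1) + (if b then 0 else 1)))
    (hP2 : ∀ r ≤ n, P n w c r → ¬ inc n w r → ∀ b : Bool,
      st1 P (n + 1) (insF r w) (insB r b c) = st1 P n w c) (f : ℕ × ℕ → K) :
    ∑ r ∈ range (n + 1), (if P n w c r then ∑ b : Bool,
      (if b then q - 1 else 1) * f (st1 P (n + 1) (insF r w) (insB r b c)) else 0)
    = Step1 q f (st1 P n w c) := by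
  have hL : ∀ r ≤ n, cnt (fun k => P n w c k ∧ r ≤ k) (n + 1)
      = cnt (P n w c) (n + 1) - cnt (P n w c) r := by
    intro r hr
    have h1 := cnt_split (P n w c) (fun k => r ≤ k) (n + 1)
    have h2 : cnt (fun k => P n w c k ∧ ¬ r ≤ k) (n + 1) = cnt (P n w c) r := by
      have : ∀ m, r ≤ m → cnt (fun k => P n w c k ∧ ¬ r ≤ k) m = cnt (P n w c) r := by
        intro m hm
        induction m, hm using Nat.le_induction with
        | base => exact cnt_congr (fun k hk => by simp; omega)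
        | succ m hm ih => rw [cnt_succ, ih]; simp [hm]
      exact this _ (by omega)
    omega
  set N := cnt (P n w c) (n + 1) with hN
  have key := sum_split (K := K) (P n w c) (inc n w) (fun r s h => inc_mono h)
    (fun L => f (L, N - L + 1) + (q - 1) * f (L, N - L)) (q * f (st1 P n w c)) (n + 1)
  have e : ∀ r ∈ range (n + 1), (if P n w c r then ∑ b : Bool,
      (if b then q - 1 else 1) * f (st1 P (n + 1) (insF r w) (insB r b c)) else 0)
      = (if P n w c r then (if inc n w r then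
        (fun L => f (L, N - L + 1) + (q - 1) * f (L, N - L)) (cnt (P n w c) r)
        else q * f (st1 P n w c)) else 0) := by
    intro r hr
    have hr' : r ≤ n := by have := Finset.mem_range.mp hr; omega
    by_cases h1 : P n w c r
    · by_cases h2 : inc n w r
      · simp only [h1, h2, if_true]
        rw [Fintype.sum_bool, hP1 r hr' h1 h2 true, hP1 r hr' h1 h2 false, hL r hr']
        simp
        ring
      · simp only [h1, h2, if_true, if_false]
        rw [Fintype.sum_bool, hP2 r hr' h1 h2 true, hP2 r hr' h1 h2 false]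
        simp
        ring
    · simp [h1]
  rw [Finset.sum_congr rfl e, key]
  unfold Step1
  have hNs := cnt_split (P n w c) (inc n w) (n + 1)
  congr 1
  refine Finset.sum_congr rfl (fun x hx => ?_)
  have hx' := Finset.mem_range.mp hx
  have e3 : N - (cnt (fun r => P n w c r ∧ ¬ inc n w r) (n + 1) + x)
      = cnt (fun r => P n w c r ∧ inc n w r) (n + 1) - x := by omega
  simp only [st1, e3]

end Pool.Agent.R25.Dw
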