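import Pool.Agent.R25.Dw.One

namespace Pool.Agent.R25.Dw

open Finset

/-- legal places, ascent version -/
def PA1 (n : ℕ) (w : ℕ → ℕ) (c : ℕ → Bool) (r : ℕ) : Prop := r < n → Lg1 n w c r
/-- legal places, descent version -/
def PB1 (n : ℕ) (w : ℕ → ℕ) (c : ℕ → Bool) (r : ℕ) : Prop := 0 < r → Lg1 n w c (r - 1)

def OKA1 (n : ℕ) (w : ℕ → ℕ) (c : ℕ → Bool) : Prop := TopA n w (Lg1 n w c)
def OKB1 (n : ℕ) (w : ℕ → ℕ) (c : ℕ → Bool) : Prop := TopB n w (Lg1 n w c)

lemma OKA1_ins {n r : ℕ} (hr : r ≤ n) (w : ℕ → ℕ) (b : Bool) (c : ℕ → Bool) :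
    OKA1 (n + 1) (insF r w) (insB r b c) ↔ OKA1 n w c ∧ PA1 n w c r :=
  TopA_ins hr w (fun j _ => Lg1_up hr w b c j)

lemma OKB1_ins {n r : ℕ} (hr : r ≤ n) (w : ℕ → ℕ) (b : Bool) (c : ℕ → Bool) :
    OKB1 (n + 1) (insF r w) (insB r b c) ↔ OKB1 n w c ∧ PB1 n w c r :=
  TopB_ins hr w (fun j _ => Lg1_up hr w b c j)

section
variable {n r : ℕ} (hr : r ≤ n) (w : ℕ → ℕ) (b : Bool) (c : ℕ → Bool)
include hr

lemma PA1_low {j : ℕ} (hj : j < r) :
    PA1 (n + 1) (insF r w) (insB r b c) j ↔ PA1 n w c j := by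
  unfold PA1
  have h1 := Lg1_up hr w b c j
  rw [up_lt hj] at h1
  rw [h1]
  have h2 : j < n + 1 := by omega
  have h3 : j < n := by omega
  simp [h2, h3]

lemma PA1_self : PA1 (n + 1) (insF r w) (insB r b c) r ↔ inc n w r ∧ b = false := by
  unfold PA1
  rw [Lg1_self hr]
  have h2 : r < n + 1 := by omega
  simp [h2]

lemma PA1_high {j : ℕ} (hj : r ≤ j) :
    PA1 (n + 1) (insF r w) (insB r b c) (j + 1) ↔ PA1 n w c j := by
  unfold PA1
  have h1 := Lg1_up hr w b c j
  rw [up_ge hj] at h1
  rw [h1]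
  simp

lemma PB1_low {j : ℕ} (hj : j ≤ r) :
    PB1 (n + 1) (insF r w) (insB r b c) j ↔ PB1 n w c j := by
  unfold PB1
  rcases Nat.eq_zero_or_pos j with h0 | h0
  · simp [h0]
  · have h1 := Lg1_up hr w b c (j - 1)
    rw [up_lt (by omega)] at h1
    rw [h1]

lemma PB1_self : PB1 (n + 1) (insF r w) (insB r b c) (r + 1) ↔ inc n w r ∧ b = false := by
  unfold PB1
  rw [Nat.add_sub_cancel, Lg1_self hr]
  simp

lemma PB1_high {j : ℕ} (hj : r + 1 ≤ j) :
    PB1 (n + 1) (insF r w) (insB r b c) (j + 1) ↔ PB1 n w c j := by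
  unfold PB1
  have h1 := Lg1_up hr w b c (j - 1)
  rw [up_ge (by omega), show j - 1 + 1 = j by omega] at h1
  rw [Nat.add_sub_cancel, h1]
  have : 0 < j := by omega
  simp [this]
end

lemma cnt_below (P : ℕ → Prop) {r n : ℕ} (hr : r ≤ n) :
    cnt (fun k => P k ∧ ¬ r ≤ k) n = cnt P r := by
  induction n, hr using Nat.le_induction with
  | base => exact cnt_congr (fun k hk => by simp; omega)
  | succ m hm ih => rw [cnt_succ, ih]; simp [hm]

lemma stA1_in {n r : ℕ} (hr : r ≤ n) (w : ℕ → ℕ) (c : ℕ → Bool) (hi : inc n w r) (b : Bool) :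
    st1 PA1 (n + 1) (insF r w) (insB r b c) = (cnt (PA1 n w c) r,
        cnt (fun k => PA1 n w c k ∧ r ≤ k) (n + 1) + (if b then 0 else 1)) := by
  unfold st1
  congr 1
  · rw [← cnt_below (PA1 n w c) (show r ≤ n + 1 by omega)]
    rw [cnt_ins (P := fun k => PA1 n w c k ∧ ¬ r ≤ k) (show r ≤ n + 1 by omega)]
    · rw [inc_self hr]
      simp [hi]
    · intro j hj
      simp only [PA1_low hr w b c hj, inc_low hr w hj]
      simp; omega
    · intro j hj _
      simp only [PA1_high hr w b c hj, inc_high hr w hj, inc_mono hj hi]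
      simp; omega
  · rw [cnt_ins (P := fun k => PA1 n w c k ∧ r ≤ k) (show r ≤ n + 1 by omega)]
    · rw [inc_self hr, PA1_self hr]
      cases b <;> simp [hi]
    · intro j hj
      simp only [PA1_low hr w b c hj, inc_low hr w hj]
      simp; omega
    · intro j hj _
      simp only [PA1_high hr w b c hj, inc_high hr w hj, inc_mono hj hi, hj]

lemma stA1_out {n r : ℕ} (hr : r ≤ n) (w : ℕ → ℕ) (c : ℕ → Bool) (hi : ¬ inc n w r) (b : Bool) :
    st1 PA1 (n + 1) (insF r w) (insB r b c) = st1 PA1 n w c := by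
  unfold st1
  congr 1
  · rw [cnt_ins (P := fun k => PA1 n w c k ∧ ¬ inc n w k) (show r ≤ n + 1 by omega)]
    · rw [PA1_self hr]
      simp [hi]
    · intro j hj
      have h1 : ¬ inc n w j := fun h => hi (inc_mono (le_of_lt hj) h)
      simp only [PA1_low hr w b c hj, inc_low hr w hj, h1]
    · intro j hj _
      simp only [PA1_high hr w b c hj, inc_high hr w hj]
  · rw [cnt_ins (P := fun k => PA1 n w c k ∧ inc n w k) (show r ≤ n + 1 by omega)]
    · rw [PA1_self hr]
      simp [hi]
    · intro j hj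
      have h1 : ¬ inc n w j := fun h => hi (inc_mono (le_of_lt hj) h)
      simp only [PA1_low hr w b c hj, inc_low hr w hj, h1]
    · intro j hj _
      simp only [PA1_high hr w b c hj, inc_high hr w hj]

lemma stB1_in {n r : ℕ} (hr : r ≤ n) (w : ℕ → ℕ) (c : ℕ → Bool) (hP : PB1 n w c r)
    (hi : inc n w r) (b : Bool) :
    st1 PB1 (n + 1) (insF r w) (insB r b c) = (cnt (PB1 n w c) r,
        cnt (fun k => PB1 n w c k ∧ r ≤ k) (n + 1) + (if b then 0 else 1)) := by
  unfold st1
  have hi' : inc (n + 1) (insF r w) (r + 1) := (inc_high hr w le_rfl).mpr hi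
  congr 1
  · rw [← cnt_below (PB1 n w c) (show r ≤ n + 1 by omega)]
    rw [cnt_ins (P := fun k => PB1 n w c k ∧ ¬ r ≤ k) (show r + 1 ≤ n + 1 by omega)]
    · simp [hi']
    · intro j hj
      rcases Nat.lt_or_ge j r with h | h
      · simp only [PB1_low hr w b c (le_of_lt h), inc_low hr w h]
        simp; omega
      · have : j = r := by omega
        subst this
        simp [inc_self hr, hi]
    · intro j hj _
      simp only [PB1_high hr w b c hj, inc_high hr w (show r ≤ j by omega),
        inc_mono (show r ≤ j by omega) hi]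
      simp; omega
  · rw [cnt_ins (P := fun k => PB1 n w c k ∧ r ≤ k) (show r + 1 ≤ n + 1 by omega)]
    · rw [PB1_self hr]
      cases b <;> simp [hi, hi']
    · intro j hj
      rcases Nat.lt_or_ge j r with h | h
      · simp only [PB1_low hr w b c (le_of_lt h), inc_low hr w h]
        simp; omega
      · have : j = r := by omega
        subst this
        simp only [PB1_low hr w b c le_rfl, inc_self hr, hi, hP, le_refl]
    · intro j hj _
      have h2 : r ≤ j := by omega
      simp only [PB1_high hr w b c hj, inc_high hr w h2,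
        inc_mono h2 hi, h2]

lemma stB1_out {n r : ℕ} (hr : r ≤ n) (w : ℕ → ℕ) (c : ℕ → Bool) (hi : ¬ inc n w r) (b : Bool) :
    st1 PB1 (n + 1) (insF r w) (insB r b c) = st1 PB1 n w c := by
  unfold st1
  congr 1
  · rw [cnt_ins (P := fun k => PB1 n w c k ∧ ¬ inc n w k) (show r + 1 ≤ n + 1 by omega)]
    · rw [PB1_self hr]
      simp [hi]
    · intro j hj
      rcases Nat.lt_or_ge j r with h | h
      · have h1 : ¬ inc n w j := fun h' => hi (inc_mono (le_of_lt h) h')
        simp only [PB1_low hr w b c (le_of_lt h), inc_low hr w h, h1]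
      · have : j = r := by omega
        subst this
        simp only [PB1_low hr w b c le_rfl, inc_self hr]
    · intro j hj _
      simp only [PB1_high hr w b c hj, inc_high hr w (show r ≤ j by omega)]
  · rw [cnt_ins (P := fun k => PB1 n w c k ∧ inc n w k) (show r + 1 ≤ n + 1 by omega)]
    · rw [PB1_self hr]
      simp [hi]
    · intro j hj
      rcases Nat.lt_or_ge j r with h | h
      · have h1 : ¬ inc n w j := fun h' => hi (inc_mono (le_of_lt h) h')
        simp only [PB1_low hr w b c (le_of_lt h), inc_low hr w h, h1]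
      · have : j = r := by omega
        subst this
        simp only [PB1_low hr w b c le_rfl, inc_self hr]
    · intro j hj _
      simp only [PB1_high hr w b c hj, inc_high hr w (show r ≤ j by omega)]

variable {K : Type*} [CommRing K]

open Classical in
theorem HA1 (q : K) (n : ℕ) (w : ℕ → ℕ) (c : ℕ → Bool) (f : ℕ × ℕ → K) :
    (∑ r ∈ range (n + 1), ∑ b : Bool, if OKA1 (n + 1) (insF r w) (insB r b c) then
        (if b then q - 1 else 1) * f (st1 PA1 (n + 1) (insF r w) (insB r b c)) else 0)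
      = if OKA1 n w c then Step1 q f (st1 PA1 n w c) else 0 := by
  by_cases h : OKA1 n w c
  · rw [if_pos h, ← step1_general q PA1 n w c
      (fun r hr _ hi b => stA1_in hr w c hi b) (fun r hr _ hi b => stA1_out hr w c hi b) f]
    refine Finset.sum_congr rfl (fun r hr => ?_)
    have hr' : r ≤ n := by have := Finset.mem_range.mp hr; omega
    by_cases hP : PA1 n w c r
    · rw [if_pos hP]
      refine Finset.sum_congr rfl (fun b _ => ?_)
      rw [if_pos ((OKA1_ins hr' w b c).mpr ⟨h, hP⟩)]
    · rw [if_neg hP]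
      refine Finset.sum_eq_zero (fun b _ => ?_)
      rw [if_neg (fun h' => hP ((OKA1_ins hr' w b c).mp h').2)]
  · rw [if_neg h]
    refine Finset.sum_eq_zero (fun r hr => Finset.sum_eq_zero (fun b _ => ?_))
    have hr' : r ≤ n := by have := Finset.mem_range.mp hr; omega
    rw [if_neg (fun h' => h ((OKA1_ins hr' w b c).mp h').1)]

open Classical in
theorem HB1 (q : K) (n : ℕ) (w : ℕ → ℕ) (c : ℕ → Bool) (f : ℕ × ℕ → K) :
    (∑ r ∈ range (n + 1), ∑ b : Bool, if OKB1 (n + 1) (insF r w) (insB r b c) then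
        (if b then q - 1 else 1) * f (st1 PB1 (n + 1) (insF r w) (insB r b c)) else 0)
      = if OKB1 n w c then Step1 q f (st1 PB1 n w c) else 0 := by
  by_cases h : OKB1 n w c
  · rw [if_pos h, ← step1_general q PB1 n w c
      (fun r hr hP hi b => stB1_in hr w c hP hi b) (fun r hr _ hi b => stB1_out hr w c hi b) f]
    refine Finset.sum_congr rfl (fun r hr => ?_)
    have hr' : r ≤ n := by have := Finset.mem_range.mp hr; omega
    by_cases hP : PB1 n w c r
    · rw [if_pos hP]
      refine Finset.sum_congr rfl (fun b _ => ?_)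
      rw [if_pos ((OKB1_ins hr' w b c).mpr ⟨h, hP⟩)]
    · rw [if_neg hP]
      refine Finset.sum_eq_zero (fun b _ => ?_)
      rw [if_neg (fun h' => hP ((OKB1_ins hr' w b c).mp h').2)]
  · rw [if_neg h]
    refine Finset.sum_eq_zero (fun r hr => Finset.sum_eq_zero (fun b _ => ?_))
    have hr' : r ≤ n := by have := Finset.mem_range.mp hr; omega
    rw [if_neg (fun h' => h ((OKB1_ins hr' w b c).mp h').1)]

open Classical in
/-- flagged totals of the two classes agree (first question) -/
theorem total1 (q : K) (n : ℕ) :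
    S n (fun w c => if OKA1 n w c then wp q n c else 0)
    = S n (fun w c => if OKB1 n w c then wp q n c else 0) := by
  have hA := S_step q OKA1 (st1 PA1) (Step1 q) (HA1 q) (by intro i hi; omega) n (fun _ => 1)
  have hB := S_step q OKB1 (st1 PB1) (Step1 q) (HB1 q) (by intro i hi; omega) n (fun _ => 1)
  simp only [mul_one] at hA hB
  rw [hA, hB]
  congr 1

end Pool.Agent.R25.Dw
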