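import Pool.Agent.R25.Dw.Cnt

namespace Pool.Agent.R25.Dw

open Finset

/-- no 231 starting at position `j` -/
def good2 (n : ℕ) (w : ℕ → ℕ) (j : ℕ) : Prop :=
  ∀ k l, j < k → k < l → l < n → ¬ (w j < w k ∧ w l < w j)
/-- the letter at `j` is not exceeded strictly between `j` and `r` -/
def RL (w : ℕ → ℕ) (j r : ℕ) : Prop := ∀ k, j < k → k < r → ¬ w j < w k

def Lg2 (n : ℕ) (w : ℕ → ℕ) (c : ℕ → Bool) (j : ℕ) : Prop := good2 n w j ∧ c j = false

/-- number of legal letters before place `r` that survive an insertion at `r` -/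
noncomputable def vv (n : ℕ) (w : ℕ → ℕ) (c : ℕ → Bool) (r : ℕ) : ℕ :=
  cnt (fun j => Lg2 n w c j ∧ RL w j r) r

section
variable {n r : ℕ} (hr : r ≤ n) (w : ℕ → ℕ) (b : Bool) (c : ℕ → Bool)
include hr

lemma good2_low {j : ℕ} (hj : j < r) :
    good2 (n + 1) (insF r w) j ↔ good2 n w j ∧ RL w j r := by
  constructor
  · intro h
    constructor
    · intro k l h1 h2 h3 h4
      refine h (up r k) (up r l) ?_ (up_lt_up.mpr h2) ((up_lt_succ hr).mpr h3) ?_
      · unfold up; split_ifs <;> omega
      · rw [insF_up, insF_up, insF_lt _ hj]; omega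
    · intro k h1 h2 h3
      refine h k r h1 h2 (by omega) ?_
      rw [insF_eq, insF_lt _ hj, insF_lt _ h2]; omega
  · rintro ⟨h, hR⟩ k l h1 h2 h3 h4
    rw [insF_lt w hj] at h4
    rcases cases_up r k with rfl | ⟨k, rfl⟩
    · rw [insF_eq] at h4; omega
    rw [insF_up] at h4
    rcases cases_up r l with rfl | ⟨l, rfl⟩
    · have h5 := up_lt_self.mp h2
      rw [up_lt h5] at h1
      exact hR k h1 h5 (by omega)
    · rw [insF_up] at h4
      refine h k l ?_ (up_lt_up.mp h2) ((up_lt_succ hr).mp h3) (by omega)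
      unfold up at h1; split_ifs at h1 <;> omega

lemma good2_self : good2 (n + 1) (insF r w) r := by
  intro k l _ _ _ h4
  rw [insF_eq] at h4
  omega

lemma good2_high {j : ℕ} (hj : r ≤ j) :
    good2 (n + 1) (insF r w) (j + 1) ↔ good2 n w j := by
  constructor
  · intro h k l h1 h2 h3 h4
    refine h (k + 1) (l + 1) (by omega) (by omega) (by omega) ?_
    rw [insF_ge _ hj, insF_ge _ (by omega), insF_ge _ (by omega)]
    omega
  · intro h k l h1 h2 h3 h4
    obtain ⟨k, rfl⟩ : ∃ k', k = k' + 1 := ⟨k - 1, by omega⟩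
    obtain ⟨l, rfl⟩ : ∃ l', l = l' + 1 := ⟨l - 1, by omega⟩
    rw [insF_ge _ hj, insF_ge _ (by omega), insF_ge _ (by omega)] at h4
    exact h k l (by omega) (by omega) (by omega) (by omega)

lemma RL_low {j s : ℕ} (hj : j < r) (hs : s ≤ r) : RL (insF r w) j s ↔ RL w j s := by
  constructor
  · intro h k h1 h2 h3
    refine h k h1 h2 ?_
    rw [insF_lt _ hj, insF_lt _ (by omega)]; omega
  · intro h k h1 h2 h3
    rw [insF_lt _ hj, insF_lt _ (by omega)] at h3
    exact h k h1 h2 (by omega)

lemma RL_mid {j s : ℕ} (hj : j < r) (hs : r ≤ s) : RL (insF r w) j (s + 1) ↔ RL w j s := by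
  constructor
  · intro h k h1 h2 h3
    refine h (up r k) (by unfold up; split_ifs <;> omega) (by unfold up; split_ifs <;> omega) ?_
    rw [insF_lt _ hj, insF_up]; omega
  · intro h k h1 h2 h3
    rw [insF_lt w hj] at h3
    rcases cases_up r k with rfl | ⟨k, rfl⟩
    · rw [insF_eq] at h3; omega
    rw [insF_up] at h3
    exact h k (by unfold up at h1; split_ifs at h1 <;> omega)
      (by unfold up at h2; split_ifs at h2 <;> omega) (by omega)

lemma RL_self {s : ℕ} (hs : r < s) : ¬ RL (insF r w) r (s + 1) := by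
  intro h
  refine h (r + 1) (by omega) (by omega) ?_
  rw [insF_eq, insF_ge _ le_rfl]; omega

lemma RL_high {j s : ℕ} (hj : r ≤ j) : RL (insF r w) (j + 1) (s + 1) ↔ RL w j s := by
  constructor
  · intro h k h1 h2 h3
    refine h (k + 1) (by omega) (by omega) ?_
    rw [insF_ge _ hj, insF_ge _ (by omega)]; omega
  · intro h k h1 h2 h3
    obtain ⟨k, rfl⟩ : ∃ k', k = k' + 1 := ⟨k - 1, by omega⟩
    rw [insF_ge _ hj, insF_ge _ (by omega)] at h3
    exact h k (by omega) (by omega) (by omega)

lemma Lg2_low {j : ℕ} (hj : j < r) :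
    Lg2 (n + 1) (insF r w) (insB r b c) j ↔ Lg2 n w c j ∧ RL w j r := by
  unfold Lg2
  rw [good2_low hr w hj, insB_lt _ _ hj]
  tauto

lemma Lg2_self : Lg2 (n + 1) (insF r w) (insB r b c) r ↔ b = false := by
  unfold Lg2
  rw [insB_eq]
  simp [good2_self hr]

lemma Lg2_high {j : ℕ} (hj : r ≤ j) :
    Lg2 (n + 1) (insF r w) (insB r b c) (j + 1) ↔ Lg2 n w c j := by
  unfold Lg2
  rw [good2_high hr w hj, insB_ge _ _ hj]

lemma vv_low {s : ℕ} (hs : s ≤ r) :
    vv (n + 1) (insF r w) (insB r b c) s = cnt (fun j => Lg2 n w c j ∧ RL w j r) s := by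
  unfold vv
  refine cnt_congr (fun j hj => ?_)
  rw [Lg2_low hr w b c (by omega), RL_low hr w (by omega) hs]
  have : RL w j r → RL w j s := fun h k h1 h2 => h k h1 (by omega)
  tauto

lemma vv_self :
    vv (n + 1) (insF r w) (insB r b c) (r + 1) = vv n w c r + (if b then 0 else 1) := by
  unfold vv
  rw [cnt_succ]
  congr 1
  · refine cnt_congr (fun j hj => ?_)
    rw [Lg2_low hr w b c hj, RL_mid hr w hj le_rfl]
    tauto
  · rw [Lg2_self hr]
    have : RL (insF r w) r (r + 1) := fun k h1 h2 => by omega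
    cases b <;> simp [this]

lemma vv_high {s : ℕ} (hs : r < s) :
    vv (n + 1) (insF r w) (insB r b c) (s + 1) = vv n w c s := by
  unfold vv
  rw [cnt_ins (P := fun j => Lg2 n w c j ∧ RL w j s) (le_of_lt hs)]
  · simp [RL_self hr w hs]
  · intro j hj
    rw [Lg2_low hr w b c hj, RL_mid hr w hj (le_of_lt hs)]
    have : RL w j s → RL w j r := fun h k h1 h2 => h k h1 (by omega)
    tauto
  · intro j hj hj'
    rw [Lg2_high hr w b c hj, RL_high hr w hj]
end

open Classical in
/-- the list of `v` over the places `k` in `[a, a + m)` with `P k` -/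
noncomputable def lst (P : ℕ → Prop) (v : ℕ → ℕ) : ℕ → ℕ → List ℕ
  | _, 0 => []
  | a, m + 1 => if P a then v a :: lst P v (a + 1) m else lst P v (a + 1) m

open Classical in
lemma lst_add (P : ℕ → Prop) (v : ℕ → ℕ) (m1 m2 : ℕ) :
    ∀ a, lst P v a (m1 + m2) = lst P v a m1 ++ lst P v (a + m1) m2 := by
  induction m1 with
  | zero => intro a; simp [lst]
  | succ m1 ih =>
    intro a
    rw [show m1 + 1 + m2 = (m1 + m2) + 1 by omega]
    simp only [lst]
    rw [ih (a + 1), show a + 1 + m1 = a + (m1 + 1) by omega]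
    split_ifs <;> simp

open Classical in
lemma lst_one (P : ℕ → Prop) (v : ℕ → ℕ) (a : ℕ) :
    lst P v a 1 = if P a then [v a] else [] := by
  simp [lst]

open Classical in
lemma lst_shift (P P' : ℕ → Prop) (v v' : ℕ → ℕ) (m : ℕ) :
    ∀ a, (∀ k, a ≤ k → k < a + m → ((P' (k + 1) ↔ P k) ∧ v' (k + 1) = v k)) →
      lst P' v' (a + 1) m = lst P v a m := by
  induction m with
  | zero => intro a _; simp [lst]
  | succ m ih =>
    intro a h
    simp only [lst]
    rw [ih (a + 1) (fun k h1 h2 => h k (by omega) (by omega))]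
    have := h a le_rfl (by omega)
    rw [this.2]
    exact if_congr this.1 rfl rfl

open Classical in
lemma lst_range (P : ℕ → Prop) (v : ℕ → ℕ) (r : ℕ) (h : ∀ j < r, P j → v j = cnt P j) :
    lst P v 0 r = List.range (cnt P r) := by
  induction r with
  | zero => simp [lst, cnt_zero]
  | succ r ih =>
    rw [lst_add, ih (fun j hj => h j (by omega)), cnt_succ, Nat.zero_add, lst_one]
    by_cases hP : P r
    · rw [if_pos hP, if_pos hP, List.range_succ, h r (by omega) hP]
    · rw [if_neg hP, if_neg hP]; simp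

variable {K : Type*} [CommRing K]

/-- common succession rule for the second question -/
noncomputable def Step2 (q : K) (f : List ℕ → K) : List ℕ → K
  | [] => 0
  | v :: rest => (f (List.range (v + 2) ++ rest) + (q - 1) * f (List.range (v + 1) ++ rest))
      + Step2 q f rest

open Classical in
lemma sum_lst (q : K) (f : List ℕ → K) (P : ℕ → Prop) (v : ℕ → ℕ) (m : ℕ) :
    ∀ a, ∑ x ∈ range m, (if P (a + x) then
      (f (List.range (v (a + x) + 2) ++ lst P v (a + x + 1) (m - 1 - x))
        + (q - 1) * f (List.range (v (a + x) + 1) ++ lst P v (a + x + 1) (m - 1 - x))) else 0)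
    = Step2 q f (lst P v a m) := by
  induction m with
  | zero => intro a; simp [lst, Step2]
  | succ m ih =>
    intro a
    rw [Finset.sum_range_succ']
    have e : ∀ x ∈ range m, (if P (a + (x + 1)) then
      (f (List.range (v (a + (x + 1)) + 2) ++ lst P v (a + (x + 1) + 1) (m + 1 - 1 - (x + 1)))
        + (q - 1) * f (List.range (v (a + (x + 1)) + 1)
          ++ lst P v (a + (x + 1) + 1) (m + 1 - 1 - (x + 1)))) else 0)
        = (if P (a + 1 + x) then
      (f (List.range (v (a + 1 + x) + 2) ++ lst P v (a + 1 + x + 1) (m - 1 - x))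
        + (q - 1) * f (List.range (v (a + 1 + x) + 1)
          ++ lst P v (a + 1 + x + 1) (m - 1 - x))) else 0) := by
      intro x hx
      have hx' := Finset.mem_range.mp hx
      rw [show a + (x + 1) = a + 1 + x by omega, show m + 1 - 1 - (x + 1) = m - 1 - x by omega]
    rw [Finset.sum_congr rfl e, ih (a + 1)]
    simp only [lst, Nat.add_zero, Nat.sub_zero, Nat.add_sub_cancel]
    by_cases hP : P a
    · rw [if_pos hP, if_pos hP]
      simp only [Step2]
      ring
    · rw [if_neg hP, if_neg hP]; ring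

/-- the state list -/
noncomputable def st2 (P : ℕ → (ℕ → ℕ) → (ℕ → Bool) → ℕ → Prop)
    (n : ℕ) (w : ℕ → ℕ) (c : ℕ → Bool) : List ℕ :=
  lst (P n w c) (vv n w c) 0 (n + 1)

open Classical in
lemma step2_general (q : K) (P : ℕ → (ℕ → ℕ) → (ℕ → Bool) → ℕ → Prop) (n : ℕ) (w : ℕ → ℕ)
    (c : ℕ → Bool)
    (hP : ∀ r ≤ n, P n w c r → ∀ b : Bool,
      st2 P (n + 1) (insF r w) (insB r b c) = List.range (vv n w c r + (if b then 1 else 2))
        ++ lst (P n w c) (vv n w c) (r + 1) (n - r)) (f : List ℕ → K) :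
    ∑ r ∈ range (n + 1), (if P n w c r then ∑ b : Bool,
      (if b then q - 1 else 1) * f (st2 P (n + 1) (insF r w) (insB r b c)) else 0)
    = Step2 q f (st2 P n w c) := by
  have key := sum_lst q f (P n w c) (vv n w c) (n + 1) 0
  unfold st2
  rw [← key]
  refine Finset.sum_congr rfl (fun r hr => ?_)
  have hr' : r ≤ n := by have := Finset.mem_range.mp hr; omega
  rw [Nat.zero_add, show n + 1 - 1 - r = n - r by omega]
  by_cases h1 : P n w c r
  · rw [if_pos h1, if_pos h1]
    have h2 := hP r hr' h1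
    unfold st2 at h2
    rw [Fintype.sum_bool, h2 true, h2 false]
    simp
    ring
  · rw [if_neg h1, if_neg h1]

end Pool.Agent.R25.Dw
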